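import Pool.Agent.Work.MP_c41774_al.Full.BDefs

/-!
# Outputs of the blocks H, P, T, G of Part B
-/

noncomputable section

namespace Pool.Agent.Work.MP_c41774_al.Full

open Finset MvPolynomial
open Pool.Agent.Work.MP_c41774_al.Wall

/-! ### Block H (Harder–Narasimhan) -/

/-- `cross` -/
def H_CROSS : Prop := ∀ (b c : ℕ), 0 < b → 0 < c → ∀ κ₀ : ℕ × ℕ, Nat.Coprime κ₀.1 κ₀.2 → ∀ κ,
  hiB b c κ₀ κ = tmul b c (loB b c κ₀) (dirf κ₀ (MB b c κ₀)) κ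

def H_NEXT : Prop := ∀ (b c : ℕ), 0 < b → 0 < c → ∀ κ₁ κ₂ κ : ℕ × ℕ,
  Nat.Coprime κ₁.1 κ₁.2 → Nat.Coprime κ₂.1 κ₂.2 → Slt κ₁ κ₂ →
    (∀ κ' ≤ κ, ¬ (Slt κ₁ κ' ∧ Slt κ' κ₂)) → hiB b c κ₁ κ = loB b c κ₂ κ

def H_LOZ : Prop := ∀ (b c : ℕ), 0 < b → 0 < c → ∀ κ, loB b c (0, 1) κ = if κ = 0 then 1 else 0

def H_HIINF : Prop := ∀ (b c : ℕ), 0 < b → 0 < c → ∀ κ,
  hiB b c (1, 0) κ = tmul b c (dirf (1, 0) (MB b c (1, 0))) (dirf (0, 1) (MB b c (0, 1))) κ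

def H_CONST : Prop := ∀ (b c : ℕ), 0 < b → 0 < c → ∀ κ₀ : ℕ × ℕ, Nat.Coprime κ₀.1 κ₀.2 →
  PowerSeries.constantCoeff (MB b c κ₀) = 1

def H_EX : Prop := ∀ (b c : ℕ), 0 < b → 0 < c →
  PowerSeries.rescale (w (-(b : ℤ))) (MB b c (1, 0)) =
    (1 + PowerSeries.X) * PowerSeries.rescale (w b) (MB b c (1, 0))

def H_EY : Prop := ∀ (b c : ℕ), 0 < b → 0 < c →
  PowerSeries.rescale (w (-(c : ℤ))) (MB b c (0, 1)) =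
    (1 + PowerSeries.X) * PowerSeries.rescale (w c) (MB b c (0, 1))

/-! ### Block P (PBW) -/

/-- `dim (P₁/I⁺)` in charge `k κ₀` and degree `j`: the graded dimension of `B(S_k)` decorated by
words -/
def bd (b c : ℕ) (κ₀ : ℕ × ℕ) (k j : ℕ) : ℕ :=
  dimQ (VV b c (Fin (k * κ₀.1 + k * κ₀.2)) (k * κ₀.1, k * κ₀.2) j ⊓ vin (Pf κ₀ 1)) (vin (IpS _ κ₀))

/-- Generators: a homogeneous basis element of `B(S_{k+1})` of degree `j` times `z^m`. -/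
abbrev Gn (b c : ℕ) (κ₀ : ℕ × ℕ) : Type := Σ (k : ℕ) (j : ℕ), Fin (bd b c κ₀ (k + 1) j) × ℕ

/-- size -/
def gsz {b c : ℕ} {κ₀ : ℕ × ℕ} (x : Gn b c κ₀) : ℕ := x.1 + 1

/-- normalised degree -/
def gdg {b c : ℕ} {κ₀ : ℕ × ℕ} (x : Gn b c κ₀) : ℤ :=
  x.2.1 + 2 * b * c * x.2.2.2 - b * c * ((x.1 : ℤ) + 1) ^ 2 * κ₀.1 * κ₀.2

/-- parity -/
def god {b c : ℕ} {κ₀ : ℕ × ℕ} (x : Gn b c κ₀) : Prop :=
  Odd ((x.1 + 1) * (κ₀.1 + κ₀.2 + κ₀.1 * κ₀.2))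

/-- number of super-multisets in `X` of total size `K` and total degree `J` -/
def smc {X : Type*} (sz : X → ℕ) (dg : X → ℤ) (od : X → Prop) (K : ℕ) (J : ℤ) : ℕ :=
  Nat.card {m : X →₀ ℕ // (∀ x, od x → m x ≤ 1) ∧ (m.sum fun x n => n * sz x) = K ∧
    (m.sum fun x n => (n : ℤ) * dg x) = J}

/-- PBW: the dimensions of `M(S_K)` are the numbers of super-multisets of generators. -/
def P_PBW : Prop := ∀ (b c : ℕ), 0 < b → 0 < c → ∀ κ₀ : ℕ × ℕ, Nat.Coprime κ₀.1 κ₀.2 →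
  0 < κ₀.1 → 0 < κ₀.2 → ∀ K j : ℕ,
    hp b c κ₀ (K * κ₀.1, K * κ₀.2) j =
      smc (X := Gn b c κ₀) gsz gdg god K ((j : ℤ) - b * c * (K : ℤ) ^ 2 * κ₀.1 * κ₀.2)

/-! ### Block T (Part 2) -/

/-- `N_k ≥ 0` -/
def T_POS : Prop := ∀ (b c : ℕ), 0 < b → 0 < c → (b ∣ c ∨ c ∣ b) → ∀ κ₀ : ℕ × ℕ,
  Nat.Coprime κ₀.1 κ₀.2 → 0 < κ₀.1 → 0 < κ₀.2 → ∀ k : ℕ, 0 < k →
    SN ((w (-((k : ℤ) * Nat.gcd (b * κ₀.1) (c * κ₀.2))) -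
        w ((k : ℤ) * Nat.gcd (b * κ₀.1) (c * κ₀.2))) *
      (w (-((b : ℤ) * c * k ^ 2 * κ₀.1 * κ₀.2)) * ser (bd b c κ₀ k) *
        ser fun j => if 2 * b * c ∣ j then 1 else 0))

/-! ### Block G -/

/-- `pos` for the slopes with `p₀, q₀ > 0` -/
def G_POS : Prop := P_PBW → T_POS → ∀ (b c : ℕ), 0 < b → 0 < c → (b ∣ c ∨ c ∣ b) →
  ∀ κ₀ : ℕ × ℕ, Nat.Coprime κ₀.1 κ₀.2 → 0 < κ₀.1 → 0 < κ₀.2 →
    ∃ f : PowerSeries S, (∀ n, SN (PowerSeries.coeff n f)) ∧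
      PowerSeries.rescale (w (-(Nat.gcd (b * κ₀.1) (c * κ₀.2) : ℤ))) (MB b c κ₀) =
        f * PowerSeries.rescale (w (Nat.gcd (b * κ₀.1) (c * κ₀.2) : ℤ)) (MB b c κ₀)

end Pool.Agent.Work.MP_c41774_al.Full
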