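import Pool.Agent.Work.MP_c41774_al.Full.BDefs

/-!
# Block C: common lemmas on labelled rings and families (used by the blocks H, P, T)
-/

noncomputable section

namespace Pool.Agent.Work.MP_c41774_al.Full

open Finset MvPolynomial
open Pool.Agent.Work.MP_c41774_al.Wall

/-- relabelling of families along `e : L ≃ L'` -/
def rel {b c : ℕ} {L L' : Type*} (e : L ≃ L') (F : Fm b c L) : Fm b c L' :=
  fun w => rename e (F (w ∘ e))

/-- relabelling as a linear equivalence -/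
def C_REL : Prop := ∀ (b c : ℕ) (L L' : Type) [Fintype L] [DecidableEq L] [Fintype L']
  [DecidableEq L'] (e : L ≃ L'), ∃ φ : Fm b c L ≃ₗ[ℚ] Fm b c L', (∀ F, φ F = rel e F) ∧
    (∀ F, φ.symm F = rel e.symm F) ∧
    (∀ κ j, (VV b c L κ j).map φ.toLinearMap = VV b c L' κ j) ∧
    (∀ κ₀, (vin (IpS L κ₀) : Submodule ℚ (Fm b c L)).map φ.toLinearMap = vin (IpS L' κ₀)) ∧
    (∀ κ₀, (vin (I0S L κ₀) : Submodule ℚ (Fm b c L)).map φ.toLinearMap = vin (I0S L' κ₀)) ∧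
    (∀ κ₀ n, (vin (Pf κ₀ n) : Submodule ℚ (Fm b c L)).map φ.toLinearMap = vin (Pf κ₀ n))

/-- relabelling of the ideals `I⁺_β` -/
def C_RELI : Prop := ∀ (L L' : Type) [Fintype L] [DecidableEq L] [Fintype L']
  [DecidableEq L'] (D D' : Type) [DecidableEq D] [DecidableEq D'] (e : L ≃ L') (φ : D → D')
  (κ₀ : ℕ × ℕ) (τ : L' → Bool) (β : L → D) (β' : L' → D'), Function.Injective φ →
  (∀ l, β' (e l) = φ (β l)) → ∀ f : MvPolynomial L ℚ,
    rename e f ∈ Ip κ₀ τ β' ↔ f ∈ Ip κ₀ (τ ∘ e) β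

/-- permutations preserve the subspaces -/
def C_ACT : Prop := ∀ (b c : ℕ) (L : Type) [Fintype L] [DecidableEq L] (g : Equiv.Perm L)
  (F : Fm b c L) (κ₀ : ℕ × ℕ) (n : ℤ),
    (F ∈ vin (IpS L κ₀) → act g F ∈ vin (IpS L κ₀)) ∧
    (F ∈ vin (I0S L κ₀) → act g F ∈ vin (I0S L κ₀)) ∧
    (F ∈ vin (Pf κ₀ n) → act g F ∈ vin (Pf κ₀ n))

/-- signed average -/
def Av {b c : ℕ} {L : Type*} [Fintype L] [DecidableEq L] (F : Fm b c L) : Fm b c L :=
  ((Fintype.card (Equiv.Perm L) : ℚ)⁻¹) • ∑ g : Equiv.Perm L, sg g • act g F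

/-- properties of the signed average -/
def C_AV : Prop := ∀ (b c : ℕ) (L : Type) [Fintype L] [DecidableEq L] (F : Fm b c L) (κ : ℕ × ℕ)
  (j : ℕ),
    (∀ g : Equiv.Perm L, act g (Av F) = sg g • Av F) ∧
    (∀ g : Equiv.Perm L, Av (act g F) = sg g • Av F) ∧
    ((∀ g : Equiv.Perm L, act g F = sg g • F) → Av F = F) ∧
    (((∀ w, chg w ≠ κ → F w = 0) ∧
      ∀ w, ∀ m ∈ (F w).support, 2 * b * c * m.degree + ∑ l, cwt b c (w l) = j) →
        Av F ∈ VV b c L κ j)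

/-- finite dimension -/
def C_FD : Prop := ∀ (b c : ℕ), 0 < b → 0 < c → ∀ (L : Type) [Fintype L] [DecidableEq L]
  (κ : ℕ × ℕ) (j : ℕ), FiniteDimensional ℚ (VV b c L κ j)

/-- the ideals are homogeneous -/
def C_HOM : Prop := ∀ (L : Type) [Fintype L] [DecidableEq L] (D : Type) [DecidableEq D]
  (κ₀ : ℕ × ℕ) (τ : L → Bool) (β : L → D) (f : MvPolynomial L ℚ) (n : ℕ),
    (f ∈ Ip κ₀ τ β → homogeneousComponent n f ∈ Ip κ₀ τ β) ∧
    (f ∈ I0 κ₀ τ → homogeneousComponent n f ∈ I0 κ₀ τ)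

/-- dimension formula for nested subspaces -/
def C_DIM : Prop := ∀ (E : Type) [AddCommGroup E] [Module ℚ E] (U V W : Submodule ℚ E),
  FiniteDimensional ℚ U → W ≤ V → V ≤ U → dimQ U W = dimQ U V + dimQ V W

/-- existence of an adapted basis: representatives of a basis of `U/(U ∩ W)` -/
def C_BAS : Prop := ∀ (E : Type) [AddCommGroup E] [Module ℚ E] (U W : Submodule ℚ E),
  FiniteDimensional ℚ U → ∃ v : Fin (dimQ U W) → E, (∀ i, v i ∈ U) ∧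
    (∀ a : Fin (dimQ U W) → ℚ, ∑ i, a i • v i ∈ W → a = 0) ∧
    ∀ u ∈ U, ∃ a : Fin (dimQ U W) → ℚ, u - ∑ i, a i • v i ∈ W

/-- dimension from an adapted family -/
def C_CARD : Prop := ∀ (E : Type) [AddCommGroup E] [Module ℚ E] (U W : Submodule ℚ E)
  (ι : Type) [Fintype ι] (v : ι → E), (∀ i, v i ∈ U) →
    (∀ a : ι → ℚ, ∑ i, a i • v i ∈ W → a = 0) →
    (∀ u ∈ U, ∃ a : ι → ℚ, u - ∑ i, a i • v i ∈ W) → dimQ U W = Fintype.card ι

/-- multiples of cuts -/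
def C_DVD : Prop := ∀ (L : Type) [Fintype L] [DecidableEq L] (E E' : Finset (L × L)),
  (E ⊆ E' → (pr E : MvPolynomial L ℚ) ∣ pr E') ∧
    (Disjoint E E' → (pr (E ∪ E') : MvPolynomial L ℚ) = pr E * pr E')

/-- `I⁺_β ≤ I⁺_β'` if `β'` refines `β` -/
def C_REF : Prop := ∀ (L : Type) [Fintype L] [DecidableEq L] (D D' : Type) [DecidableEq D]
  [DecidableEq D'] (κ₀ : ℕ × ℕ) (τ : L → Bool) (β : L → D) (β' : L → D') (φ : D' → D),
    (∀ l, β l = φ (β' l)) → Ip κ₀ τ β ≤ Ip κ₀ τ β'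

/-- shifts preserve the ideals -/
def C_SHI : Prop := ∀ (L : Type) [Fintype L] [DecidableEq L] (D D' : Type) [DecidableEq D]
  [DecidableEq D'] (κ₀ : ℕ × ℕ) (τ : L → Bool) (β : L → D) (γ : L → D') (φ : D → D'),
    (∀ l, γ l = φ (β l)) → ∀ f ∈ Ip κ₀ τ β, ∀ α, (Sh γ f).coeff α ∈ Ip κ₀ τ β

end Pool.Agent.Work.MP_c41774_al.Full
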