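import Pool.Agent.Work.MP_c41774_al.Full.PDefs

/-!
# Block P: outputs of the ring level part (R) used by the word level part (W)
-/

noncomputable section

namespace Pool.Agent.Work.MP_c41774_al.Full

open Finset MvPolynomial
open Pool.Agent.Work.MP_c41774_al.Wall

/-- The growth filtration relative to `γ`: conditions only for the good `β` refining `γ`, the
bound is lowered by `deg e_γ`. -/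
def PR {L : Type} [Fintype L] [DecidableEq L] (κ₀ : ℕ × ℕ) (n : ℤ) (τ : L → Bool) {d₀ : ℕ}
    (γ : L → Fin d₀) : Submodule ℚ (MvPolynomial L ℚ) where
  carrier := {f | ∀ (d : ℕ) (β : L → Fin d) (φ : Fin d → Fin d₀), Good κ₀ τ β →
    (∀ l, γ l = φ (β l)) → ∀ α : Fin d →₀ ℕ,
    2 * (dege τ β : ℤ) - 2 * dege τ γ + n - d < 2 * (α.degree : ℤ) →
      (Sh β f).coeff α ∈ Ip κ₀ τ β}
  add_mem' := by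
    intro f g hf hg d β φ hβ hφ α hα
    rw [map_add, coeff_add]
    exact Ideal.add_mem _ (hf d β φ hβ hφ α hα) (hg d β φ hβ hφ α hα)
  zero_mem' := by
    intro d β φ hβ hφ α hα
    rw [map_zero, coeff_zero]
    exact Ideal.zero_mem _
  smul_mem' := by
    intro r f hf d β φ hβ hφ α hα
    rw [map_smul, coeff_smul]
    exact Submodule.smul_of_tower_mem _ r (hf d β φ hβ hφ α hα)

/-- average variable of a block -/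
def zav {L : Type} [Fintype L] {D : Type*} [DecidableEq D] (γ : L → D) (i : D) :
    MvPolynomial L ℚ :=
  C ((#(blk γ i) : ℚ)⁻¹) * ∑ l ∈ blk γ i, X l

/-- (R3) span -/
def R_SPAN : Prop := ∀ κ₀ : ℕ × ℕ, 0 < κ₀.1 → 0 < κ₀.2 → ∀ (L : Type) [Fintype L] [DecidableEq L]
  (τ : L → Bool) (n : ℤ), th κ₀ τ univ = 0 → Nonempty L → ∀ f ∈ Pf κ₀ n τ,
    f ∈ Submodule.span ℚ {g | ∃ (d : ℕ) (γ : L → Fin d) (m : Fin d → ℕ)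
      (u : ∀ i : Fin d, MvPolynomial {l // γ l = i} ℚ), Good κ₀ τ γ ∧
      (d : ℤ) + 2 * (∑ i, m i : ℕ) ≤ n ∧ (∀ i, u i ∈ Pf κ₀ 1 (τ ∘ Subtype.val)) ∧
      g = pr (crs τ γ) * ∏ i, (zav γ i ^ m i * rename Subtype.val (u i))} ⊔
    (Ip κ₀ τ tv).restrictScalars ℚ

/-- (R1p) -/
def R_PRO : Prop := ∀ κ₀ : ℕ × ℕ, 0 < κ₀.1 → 0 < κ₀.2 → ∀ (L : Type) [Fintype L] [DecidableEq L]
  (τ : L → Bool) (n : ℤ) (d : ℕ) (γ : L → Fin d), Good κ₀ τ γ → ∀ f ∈ PR κ₀ n τ γ,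
    pr (crs τ γ) * f ∈ Pf κ₀ n τ

/-- (R1z) -/
def R_ZPF : Prop := ∀ (κ₀ : ℕ × ℕ) (L : Type) [Fintype L] [DecidableEq L]
  (τ : L → Bool) (n : ℤ) (l : L), ∀ f ∈ Pf κ₀ n τ, X l * f ∈ Pf κ₀ (n + 2) τ

/-- (R1q) -/
def R_BLK : Prop := ∀ κ₀ : ℕ × ℕ, 0 < κ₀.1 → 0 < κ₀.2 → ∀ (d : ℕ) (M : Fin d → Type)
  [∀ i, Fintype (M i)] [∀ i, DecidableEq (M i)] (τ : (Σ i, M i) → Bool) (n : Fin d → ℤ)
  (f : ∀ i, MvPolynomial (M i) ℚ), Good κ₀ τ Sigma.fst →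
    (∀ i, f i ∈ Pf κ₀ (n i) (fun a => τ ⟨i, a⟩)) →
    ∏ i, rename (Sigma.mk i) (f i) ∈ PR κ₀ (∑ i, n i) τ Sigma.fst

/-- (R1off) -/
def R_OFF : Prop := ∀ κ₀ : ℕ × ℕ, 0 < κ₀.1 → 0 < κ₀.2 → ∀ (L : Type) [Fintype L] [DecidableEq L]
  (τ : L → Bool) (n : ℤ) (d d' : ℕ) (γ : L → Fin d) (β : L → Fin d'), Good κ₀ τ γ → Good κ₀ τ β →
  d' ≤ d → (¬ ∃ σ : Fin d ≃ Fin d', β = σ ∘ γ) → ∀ f ∈ PR κ₀ n τ γ, ∀ α : Fin d' →₀ ℕ,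
    2 * (dege τ β : ℤ) + n - d' = 2 * (α.degree : ℤ) →
      (Sh β (pr (crs τ γ) * f)).coeff α ∈ Ip κ₀ τ β

/-- (R1on) -/
def R_ON : Prop := ∀ κ₀ : ℕ × ℕ, 0 < κ₀.1 → 0 < κ₀.2 → ∀ (L : Type) [Fintype L] [DecidableEq L]
  (τ : L → Bool) (n : ℤ) (d : ℕ) (γ : L → Fin d) (σ : Equiv.Perm (Fin d)), Good κ₀ τ γ →
  ∀ f ∈ PR κ₀ n τ γ, ∀ α : Fin d →₀ ℕ,
    2 * (dege τ γ : ℤ) + n - d = 2 * (α.degree : ℤ) →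
      (Sh (σ ∘ γ) (pr (crs τ γ) * f)).coeff α -
        ((∏ i, ∏ j ∈ Ioi i, (X (σ j) - X (σ i)) ^ (nx τ (blk γ i) * ny τ (blk γ j))) *
          Sh (σ ∘ γ) f).coeff α ∈ Ip κ₀ τ (σ ∘ γ)

/-- (R2) -/
def R_SWAP : Prop := ∀ κ₀ : ℕ × ℕ, 0 < κ₀.1 → 0 < κ₀.2 → ∀ (L : Type) [Fintype L] [DecidableEq L]
  (τ : L → Bool) (n : ℤ) (d : ℕ) (γ : L → Fin d) (σ : Equiv.Perm (Fin d)), Good κ₀ τ γ →
  ∀ f ∈ PR κ₀ n τ γ,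
    pr (crs τ γ) * f - (∏ i, ∏ j ∈ (Ioi i).filter (fun j => σ j < σ i),
      (-1 : ℚ) ^ (nx τ (blk γ i) * ny τ (blk γ j))) • (pr (crs τ (σ ∘ γ)) * f) ∈ Pf κ₀ (n - 1) τ

/-- (R4) -/
def R_FUN : Prop := ∀ (b c : ℕ) (κ₀ : ℕ × ℕ) (d : ℕ) (M : Fin d → Type)
  [∀ i, Fintype (M i)] [∀ i, DecidableEq (M i)] (κ : Fin d → ℕ × ℕ)
  (lam : ∀ i, Fm b c (M i) →ₗ[ℚ] ℚ),
    (∀ i, ∀ F : Fm b c (M i), (∀ w, chg w = κ i → F w ∈ Ip κ₀ (tw w) tv) → lam i F = 0) →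
    ∃ Lam : Fm b c (Σ i, M i) →ₗ[ℚ] ℚ, (∀ F : ∀ i, Fm b c (M i), Lam (bx F) = ∏ i, lam i (F i)) ∧
      ∀ G : Fm b c (Σ i, M i),
        (∀ w, (∀ i, chg (wb w i) = κ i) → G w ∈ Ip κ₀ (tw w) Sigma.fst) → Lam G = 0

/-- (R5) -/
def R_HOM : Prop := ∀ (κ₀ : ℕ × ℕ) (L : Type) [Fintype L] [DecidableEq L]
  (τ : L → Bool) (n : ℤ) (j : ℕ), ∀ f ∈ Pf κ₀ n τ, homogeneousComponent j f ∈ Pf κ₀ n τ

/-- (R6) -/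
def R_PUSH : Prop := ∀ κ₀ : ℕ × ℕ, 0 < κ₀.1 → 0 < κ₀.2 → ∀ (L : Type) [Fintype L] [DecidableEq L]
  (τ : L → Bool) (d : ℕ) (γ : L → Fin d), Good κ₀ τ γ → ∀ f ∈ Ip κ₀ τ γ,
    pr (crs τ γ) * f ∈ Ip κ₀ τ tv

/-- (R8) -/
def R_EXH : Prop := ∀ (κ₀ : ℕ × ℕ) (L : Type) [Fintype L] [DecidableEq L]
  (τ : L → Bool) (N : ℕ) (n : ℤ), 2 * (N : ℤ) + Fintype.card L ≤ n →
    ∀ f : MvPolynomial L ℚ, f.totalDegree ≤ N → f ∈ Pf κ₀ n τ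

end Pool.Agent.Work.MP_c41774_al.Full
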