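import Pool.Agent.Work.MP_c41774_al.Bd.B14
import Pool.Agent.Work.MP_c41774_al.Bd.B07
import Pool.Agent.Work.MP_c41774_al.Bd.B02
import Pool.Agent.Work.MP_c41774_al.Bd.B03
import Pool.Agent.Work.MP_c41774_al.Bd.B16

/-!
# All blocks together
-/

noncomputable section

namespace Pool.Agent.Work.MP_c41774_al.Full

open Pool.Agent.Work.MP_c41774_al.Wall

theorem pbw : P_PBW := by
  obtain ⟨r1, r2, r3, r4, r5, r6, r7, r8, r9, r10, r11⟩ := rAll
  exact blockP_of_R r1 r2 r3 r4 r5 r6 r7 r8 r9 r10 r11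

theorem wallData : S_wallData := by
  intro b c hb hc hbc
  obtain ⟨h1, h2, h3, h4, h5, h6, h7⟩ := pr_H_all
  exact mkWall h1 h2 h3 h4 h5 h6 h7 pbw T.T_POS_all pr_G_POS b c hb hc hbc

open LaurentPolynomial in
/-- The answer to Q1 and Q2. -/
theorem answerAll (b c : ℕ) (hb : 0 < b) (hc : 0 < c) (hbc : b ∣ c ∨ c ∣ b) :
    (∃! X : ℤ → QTorus, IsClusterSeq b c X) ∧
    ∀ X : ℤ → QTorus, IsClusterSeq b c X →
      (∃ σ : clusterAlgebra X ≃ₐ[R] clusterAlgebra X,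
        ∀ (m : ℤ) (x : clusterAlgebra X), (x : QTorus) = X m → (σ x : QTorus) = X (m + 2)) ∧
      (b = c → ∃ σ : clusterAlgebra X ≃ₐ[R] clusterAlgebra X,
        ∀ (m : ℤ) (x : clusterAlgebra X), (x : QTorus) = X m → (σ x : QTorus) = X (m + 1)) ∧
      ∃ G : ℤ × ℤ → QTorus, (∀ a x, IsGreedy b c a x ↔ x = G a) ∧ IsLowerBasis b c X G ∧
        ∀ B, IsLowerBasis b c X B → B = G := by
  have hW : S_wallData := wallData
  refine ⟨existsUnique_clusterSeq hb hc, fun X hX => ⟨?_, ?_, ?_⟩⟩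
  · obtain ⟨D⟩ := hW b c hb hc hbc
    obtain ⟨D'⟩ := hW c b hc hb hbc.symm
    exact auto_two hb hc D D' hX
  · rintro rfl
    obtain ⟨D⟩ := hW b b hb hb (Or.inl dvd_rfl)
    exact auto_one hb D hX
  · obtain ⟨G, h1, h2, h3, h4⟩ := answer partA hW greedyUniq b c hb hc hbc X hX
    exact ⟨G, fun a x => ⟨h2 a x, fun h => h ▸ h1 a⟩, h3, h4⟩

end Pool.Agent.Work.MP_c41774_al.Full
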