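import Pool.Agent.Work.MP_c41774_al.Wall.Defs

/-!
# Part B: labelled rings, signed invariants, graded dimensions

Labels: a finite type `L`. A word `w : L → Col b c` gives every label a colour, hence a type
(x or y). An element is a family `F : (L → Col b c) → MvPolynomial L ℚ`.
-/

noncomputable section

namespace Pool.Agent.Work.MP_c41774_al.Full

open Finset MvPolynomial
open Pool.Agent.Work.MP_c41774_al.Wall

/-! ### rings -/

section ring

variable {L : Type*} [Fintype L] [DecidableEq L]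

/-- `∏_{(k,l) ∈ E} (z_l - z_k)` -/
def pr (E : Finset (L × L)) : MvPolynomial L ℚ := ∏ e ∈ E, (X e.2 - X e.1)

/-- number of x-labels in `T` -/
def nx (τ : L → Bool) (T : Finset L) : ℕ := #(T.filter fun l => τ l = true)

/-- number of y-labels in `T` -/
def ny (τ : L → Bool) (T : Finset L) : ℕ := #(T.filter fun l => τ l = false)

/-- `θ(T) = q₀ |T_x| - p₀ |T_y|`: positive iff the slope of `T` is larger than `p₀/q₀` -/
def th (κ₀ : ℕ × ℕ) (τ : L → Bool) (T : Finset L) : ℤ :=
  (κ₀.2 : ℤ) * nx τ T - (κ₀.1 : ℤ) * ny τ T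

/-- The cut of `T` relative to the blocks of `β`: pairs `(k,l)` in the same block, `k ∈ T` of type
x and `l ∉ T` of type y. -/
def cut {D : Type*} [DecidableEq D] (τ : L → Bool) (β : L → D) (T : Finset L) : Finset (L × L) :=
  univ.filter fun e => e.1 ∈ T ∧ e.2 ∉ T ∧ τ e.1 = true ∧ τ e.2 = false ∧ β e.1 = β e.2

/-- The ideal `I⁺` relative to the blocks of `β`. For `β` constant this is `I⁺(S)`, in general it
is the sum of the ideals `I⁺(S_d)` of the blocks, `MvPolynomial L ℚ ⧸ Ip κ₀ τ β = ⊗_d M(S_d)`. -/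
def Ip {D : Type*} [DecidableEq D] (κ₀ : ℕ × ℕ) (τ : L → Bool) (β : L → D) :
    Ideal (MvPolynomial L ℚ) :=
  Ideal.span {f | ∃ T : Finset L, 0 < th κ₀ τ T ∧ f = pr (cut τ β T)}

/-- one block -/
def tv : L → Unit := fun _ => ()

/-- The ideal `I⁰(S)` (one block). -/
def I0 (κ₀ : ℕ × ℕ) (τ : L → Bool) : Ideal (MvPolynomial L ℚ) :=
  Ideal.span {f | ∃ T : Finset L, T.Nonempty ∧ 0 ≤ th κ₀ τ T ∧ f = pr (cut τ tv T)}

/-- The pairs `(k,l)` of types x, y with `k` in an earlier block than `l`. -/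
def crs {d : ℕ} (τ : L → Bool) (β : L → Fin d) : Finset (L × L) :=
  univ.filter fun e => τ e.1 = true ∧ τ e.2 = false ∧ β e.1 < β e.2

/-- `deg e_β` -/
def dege {d : ℕ} (τ : L → Bool) (β : L → Fin d) : ℕ := #(crs τ β)

/-- Block translations: `z_l ↦ z_l + t_{β l}`. The variables `t` are the outer ones. -/
def Sh {D : Type*} (β : L → D) :
    MvPolynomial L ℚ →ₐ[ℚ] MvPolynomial D (MvPolynomial L ℚ) :=
  MvPolynomial.aeval fun l => C (X l) + X (β l)

/-- `β` is a partition into `d` nonempty blocks with `θ = 0`. -/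
def Good {d : ℕ} (κ₀ : ℕ × ℕ) (τ : L → Bool) (β : L → Fin d) : Prop :=
  ∀ i : Fin d, (univ.filter fun l => β l = i).Nonempty ∧
    th κ₀ τ (univ.filter fun l => β l = i) = 0

/-- The growth filtration `P_n`: for every good partition with `d` blocks the degree in `t` of
`Sh_β f` modulo `I⁺_β` is at most `deg e_β + (n - d)/2`. -/
def Pf (κ₀ : ℕ × ℕ) (n : ℤ) (τ : L → Bool) : Submodule ℚ (MvPolynomial L ℚ) where
  carrier := {f | ∀ (d : ℕ) (β : L → Fin d), Good κ₀ τ β → ∀ α : Fin d →₀ ℕ,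
    2 * (dege τ β : ℤ) + n - d < 2 * (α.degree : ℤ) → (Sh β f).coeff α ∈ Ip κ₀ τ β}
  add_mem' := by
    intro f g hf hg d β hβ α hα
    rw [map_add, coeff_add]
    exact Ideal.add_mem _ (hf d β hβ α hα) (hg d β hβ α hα)
  zero_mem' := by
    intro d β hβ α hα
    rw [map_zero, coeff_zero]
    exact Ideal.zero_mem _
  smul_mem' := by
    intro r f hf d β hβ α hα
    rw [map_smul, coeff_smul]
    exact Submodule.smul_of_tower_mem _ r (hf d β hβ α hα)

end ring

/-! ### families -/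

/-- Colours: `inl i` are the `c` x-colours, `inr j` the `b` y-colours. -/
abbrev Col (b c : ℕ) : Type := Fin c ⊕ Fin b

/-- The weight of a colour (it contains the normalisation factor `W`). -/
def cwt (b c : ℕ) : Col b c → ℕ
  | Sum.inl i => b * (2 * c - 1 - 2 * i)
  | Sum.inr j => c * (2 * b - 1 - 2 * j)

section fam

variable (b c : ℕ) (L : Type*) [Fintype L] [DecidableEq L]

/-- Families of polynomials indexed by words. -/
abbrev Fm : Type _ := (L → Col b c) → MvPolynomial L ℚ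

variable {b c L}

/-- the types of the letters of a word -/
def tw (w : L → Col b c) : L → Bool := fun l => (w l).isLeft

/-- the charge of a word: numbers of x- and y-labels -/
def chg (w : L → Col b c) : ℕ × ℕ := (nx (tw w) univ, ny (tw w) univ)

/-- the action of permutations of the labels -/
def act (g : Equiv.Perm L) (F : Fm b c L) : Fm b c L := fun w => rename g (F (w ∘ g))

/-- the sign of a permutation as a rational number -/
def sg (g : Equiv.Perm L) : ℚ := ((Equiv.Perm.sign g : ℤ) : ℚ)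

variable (b c L)

/-- Signed invariants of charge `κ` and total degree `j`. -/
def VV (κ : ℕ × ℕ) (j : ℕ) : Submodule ℚ (Fm b c L) where
  carrier := {F | (∀ g : Equiv.Perm L, act g F = sg g • F) ∧ (∀ w, chg w ≠ κ → F w = 0) ∧
    ∀ w, ∀ m ∈ (F w).support, 2 * b * c * m.degree + ∑ l, cwt b c (w l) = j}
  add_mem' := by
    rintro F G ⟨hF1, hF2, hF3⟩ ⟨hG1, hG2, hG3⟩
    refine ⟨fun g => ?_, fun w hw => ?_, fun w m hm => ?_⟩
    · rw [smul_add, ← hF1, ← hG1]
      funext w
      simp [act]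
    · rw [Pi.add_apply, hF2 w hw, hG2 w hw, add_zero]
    · rcases Finset.mem_union.mp (MvPolynomial.support_add hm) with h | h
      · exact hF3 w m h
      · exact hG3 w m h
  zero_mem' := by
    refine ⟨fun g => ?_, fun _ _ => rfl, fun _ m hm => ?_⟩
    · funext w
      simp [act]
    · simp at hm
  smul_mem' := by
    rintro r F ⟨hF1, hF2, hF3⟩
    refine ⟨fun g => ?_, fun w hw => ?_, fun w m hm => ?_⟩
    · rw [smul_comm, ← hF1]
      funext w
      simp [act]
    · rw [Pi.smul_apply, hF2 w hw, smul_zero]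
    · exact hF3 w m (MvPolynomial.support_smul hm)

variable {b c L}

/-- Families with values in a subspace depending on the types. -/
def vin (I : (L → Bool) → Submodule ℚ (MvPolynomial L ℚ)) : Submodule ℚ (Fm b c L) where
  carrier := {F | ∀ w, F w ∈ I (tw w)}
  add_mem' := fun hF hG w => Submodule.add_mem _ (hF w) (hG w)
  zero_mem' := fun w => Submodule.zero_mem _
  smul_mem' := fun r _ hF w => Submodule.smul_mem _ r (hF w)

end fam

/-- `dim U/(U ∩ W)` -/
def dimQ {E : Type*} [AddCommGroup E] [Module ℚ E] (U W : Submodule ℚ E) : ℕ :=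
  Module.finrank ℚ (U ⧸ W.submoduleOf U)

/-- the ideal `I⁺` as a subspace -/
def IpS (L : Type*) [Fintype L] [DecidableEq L] (κ₀ : ℕ × ℕ) (τ : L → Bool) :
    Submodule ℚ (MvPolynomial L ℚ) := (Ip κ₀ τ tv).restrictScalars ℚ

/-- the ideal `I⁰` as a subspace -/
def I0S (L : Type*) [Fintype L] [DecidableEq L] (κ₀ : ℕ × ℕ) (τ : L → Bool) :
    Submodule ℚ (MvPolynomial L ℚ) := (I0 κ₀ τ).restrictScalars ℚ

/-- dimension of the part of charge `κ` and degree `j` of `R(S)/I⁺(S)` -/
def hp (b c : ℕ) (κ₀ κ : ℕ × ℕ) (j : ℕ) : ℕ :=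
  dimQ (VV b c (Fin (κ.1 + κ.2)) κ j) (vin (IpS _ κ₀))

/-- dimension of the part of charge `κ` and degree `j` of `R(S)/I⁰(S)` -/
def h0 (b c : ℕ) (κ₀ κ : ℕ × ℕ) (j : ℕ) : ℕ :=
  dimQ (VV b c (Fin (κ.1 + κ.2)) κ j) (vin (I0S _ κ₀))

/-- the series `∑_j n_j v^j` -/
def ser (n : ℕ → ℕ) : S := HahnSeries.ofPowerSeries ℤ ℤ (PowerSeries.mk fun j => (n j : ℤ))

/-- `hi κ₀` of the wall data -/
def hiB (b c : ℕ) (κ₀ κ : ℕ × ℕ) : S :=
  w (-((b : ℤ) * c * κ.1 * κ.2)) * ser (hp b c κ₀ κ)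

/-- `lo κ₀` of the wall data -/
def loB (b c : ℕ) (κ₀ κ : ℕ × ℕ) : S :=
  w (-((b : ℤ) * c * κ.1 * κ.2)) * ser (h0 b c κ₀ κ)

/-- the wall series -/
def MB (b c : ℕ) (κ₀ : ℕ × ℕ) : PowerSeries S :=
  PowerSeries.mk fun n => hiB b c κ₀ (n * κ₀.1, n * κ₀.2)

end Pool.Agent.Work.MP_c41774_al.Full
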