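import Pool.Agent.Work.MP_c41774_al.Defs

/-!
# Interface between the wall functions (Part B) and the charts (Part A)

Everything is over the ring `K = ℤ((v))` of Laurent series.
-/

noncomputable section

namespace Pool.Agent.Work.MP_c41774_al.Full

open Finset PowerSeries

/-- the ring `ℤ((v))` -/
abbrev K : Type := LaurentSeries ℤ

/-- `v^n` -/
def vz (n : ℤ) : K := HahnSeries.single n 1

/-- all coefficients are nonnegative -/
def NNK (f : K) : Prop := ∀ n : ℤ, 0 ≤ f.coeff n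

/-- Product of series in the completed quantum torus with `y x = v^{2D} x y`, written in the basis
`X^{(bp,cq)}`, `D = bc`:
`X^{(bp₁,cq₁)} X^{(bp₂,cq₂)} = v^{D (q₁ p₂ - p₁ q₂)} X^{(b(p₁+p₂),c(q₁+q₂))}`. -/
def cv (D : ℤ) (f g : ℕ × ℕ → K) (κ : ℕ × ℕ) : K :=
  ∑ κ' ∈ Iic κ, vz (D * ((κ'.2 : ℤ) * ((κ - κ').1 : ℤ) - (κ'.1 : ℤ) * ((κ - κ').2 : ℤ))) *
    (f κ' * g (κ - κ'))

/-- the unit -/
def cone : ℕ × ℕ → K := fun κ => if κ = 0 then 1 else 0

/-- the series `M(X^{(b,0)})` -/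
def embx (M : PowerSeries K) : ℕ × ℕ → K := fun κ => if κ.2 = 0 then coeff κ.1 M else 0

/-- the series `M(X^{(0,c)})` -/
def emby (M : PowerSeries K) : ℕ × ℕ → K := fun κ => if κ.1 = 0 then coeff κ.2 M else 0

/-- the series `M(X^{(b p₀, c q₀)})`, `ν = p₀/q₀` in lowest terms, `ν > 0` -/
def emb (ν : ℚ) (M : PowerSeries K) : ℕ × ℕ → K := fun κ =>
  if κ.1 * ν.den = κ.2 * ν.num.toNat then coeff (κ.2 / ν.den) M else 0

/-- all slopes `p/q` with `1 ≤ p, q ≤ N`, in increasing order -/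
def slopes (N : ℕ) : List ℚ :=
  (((Icc 1 N) ×ˢ (Icc 1 N)).image fun p : ℕ × ℕ => (p.1 : ℚ) / p.2).sort (· ≤ ·)

/-- ordered product of the wall elements with slopes in `l` -/
def wprod (D : ℤ) (M : ℚ → PowerSeries K) (l : List ℚ) : ℕ × ℕ → K :=
  l.foldl (fun acc ν => cv D acc (emb ν (M ν))) cone

/-- `gcd(b p₀, c q₀)` for `ν = p₀/q₀` -/
def gnu (b c : ℕ) (ν : ℚ) : ℕ := Nat.gcd (b * ν.num.toNat) (c * ν.den)

/-- The wall data of the rank two quantum scattering diagram with positive wall functions. -/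
structure WallData (b c : ℕ) where
  ex : PowerSeries K
  ey : PowerSeries K
  ex0 : constantCoeff ex = 1
  ey0 : constantCoeff ey = 1
  /-- `E(v^{-b} Z) = (1 + Z) E(v^b Z)` -/
  exr : rescale (vz (-(b : ℤ))) ex = (1 + X) * rescale (vz (b : ℤ)) ex
  eyr : rescale (vz (-(c : ℤ))) ey = (1 + X) * rescale (vz (c : ℤ)) ey
  M : ℚ → PowerSeries K
  f : ℚ → PowerSeries K
  M0 : ∀ ν, 0 < ν → constantCoeff (M ν) = 1
  /-- `M(v^{-g} Z) = f(Z) M(v^g Z)` -/
  Mf : ∀ ν, 0 < ν → rescale (vz (-(gnu b c ν : ℤ))) (M ν) =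
    f ν * rescale (vz (gnu b c ν : ℤ)) (M ν)
  fNN : ∀ ν, 0 < ν → ∀ j, NNK (coeff j (f ν))
  /-- `E(x) E(y) = E(y) ∏_ν M_ν E(x)` up to order `(N, N)` -/
  prod : ∀ (N : ℕ) (κ : ℕ × ℕ), κ ≤ (N, N) →
    cv ((b : ℤ) * c) (embx ex) (emby ey) κ =
      cv ((b : ℤ) * c) (cv ((b : ℤ) * c) (emby ey) (wprod ((b : ℤ) * c) M (slopes N)))
        (embx ex) κ

/-- PART A -/
def PartA : Prop := ∀ (b c : ℕ), 0 < b → 0 < c → Nonempty (WallData b c) →
  ∀ X : ℤ → QTorus, IsClusterSeq b c X →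
    ∃ G : ℤ × ℤ → QTorus, (∀ a, IsGreedy b c a (G a)) ∧ IsStronglyPositive b c X G

/-- PART B -/
def PartB : Prop := ∀ (b c : ℕ), 0 < b → b ∣ c → 0 < c → Nonempty (WallData b c)

/-- symmetry of wall data -/
def Flip : Prop := ∀ (b c : ℕ), 0 < b → 0 < c → Nonempty (WallData b c) → Nonempty (WallData c b)

/-- uniqueness of the greedy element -/
def GreedyUnique : Prop := ∀ (b c : ℕ), 0 < b → 0 < c → ∀ (a : ℤ × ℤ) (x y : QTorus),
  IsGreedy b c a x → IsGreedy b c a y → x = y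

end Pool.Agent.Work.MP_c41774_al.Full
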