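import Pool.Agent.Work.MP_c41774_al.Full.CStmts
import Pool.Agent.Work.MP_c41774_al.Full.BStmts

/-!
# Block P: definitions for the PBW theorem
-/

noncomputable section

namespace Pool.Agent.Work.MP_c41774_al.Full

open Finset MvPolynomial
open Pool.Agent.Work.MP_c41774_al.Wall

/-! ### ring level -/

section ring

variable {L : Type*} [Fintype L] [DecidableEq L]

/-- the block `β = i` -/
def blk {D : Type*} [DecidableEq D] (β : L → D) (i : D) : Finset L := univ.filter fun l => β l = i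

/-- number of pairs (x-label, y-label) in different blocks; equals `2 deg e_β` for good `β` -/
def dd {D : Type*} [DecidableEq D] (τ : L → Bool) (β : L → D) : ℕ :=
  #(univ.filter fun e : L × L => τ e.1 = true ∧ τ e.2 = false ∧ β e.1 ≠ β e.2)

/-- good partition with blocks indexed by any type -/
def GoodT {D : Type*} [DecidableEq D] (κ₀ : ℕ × ℕ) (τ : L → Bool) (β : L → D) : Prop :=
  ∀ i : D, (blk β i).Nonempty ∧ th κ₀ τ (blk β i) = 0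

/-- pairs of types x, y, in the same `β'`-block, the first in an earlier `β`-block -/
def inn {d : ℕ} {D' : Type*} [DecidableEq D'] (τ : L → Bool) (β : L → Fin d) (β' : L → D') :
    Finset (L × L) :=
  univ.filter fun e => τ e.1 = true ∧ τ e.2 = false ∧ β e.1 < β e.2 ∧ β' e.1 = β' e.2

end ring

/-- the homogeneous polynomial `∑_{|α| = D} l(α) t^α` -/
def hpol {d : ℕ} (D : ℕ) (l : (Fin d →₀ ℕ) → ℚ) : MvPolynomial (Fin d) ℚ :=
  ∑ α ∈ (univ : Finset (Fin d)).finsuppAntidiag D, monomial α (l α)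

/-! ### products of families over blocks -/

section blocks

variable {b c : ℕ} {d : ℕ} {M : Fin d → Type} [∀ i, Fintype (M i)] [∀ i, DecidableEq (M i)]

/-- the part of a word in block `i` -/
def wb (w : (Σ i, M i) → Col b c) (i : Fin d) : M i → Col b c := fun a => w ⟨i, a⟩

/-- outer product of families -/
def bx (F : ∀ i, Fm b c (M i)) : Fm b c (Σ i, M i) :=
  fun w => ∏ i, rename (Sigma.mk i) (F i (wb w i))

end blocks

/-- labels of a block of size `k` -/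
abbrev ML (κ₀ : ℕ × ℕ) (k : ℕ) : Type := Fin (k * κ₀.1 + k * κ₀.2)

/-- labels for the composition `k` -/
abbrev SL (κ₀ : ℕ × ℕ) {d : ℕ} (k : Fin d → ℕ) : Type := Σ i : Fin d, ML κ₀ (k i)

/-- the block map -/
def fs (κ₀ : ℕ × ℕ) {d : ℕ} (k : Fin d → ℕ) : SL κ₀ k → Fin d := fun l => l.1

/-- words with the right charge in every block -/
def Gw {b c : ℕ} (κ₀ : ℕ × ℕ) {d : ℕ} (k : Fin d → ℕ) (w : SL κ₀ k → Col b c) : Prop :=
  ∀ i, chg (wb w i) = (k i * κ₀.1, k i * κ₀.2)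

/-- `deg e` of the composition `k` -/
def Ek (κ₀ : ℕ × ℕ) {d : ℕ} (k : Fin d → ℕ) : ℕ := ∑ i, ∑ j ∈ Ioi i, k i * k j * (κ₀.1 * κ₀.2)

/-- `∏_{i<j} (t_j - t_i)^{n_ij}` -/
def Dl (κ₀ : ℕ × ℕ) {d : ℕ} (k : Fin d → ℕ) : MvPolynomial (Fin d) ℚ :=
  ∏ i, ∏ j ∈ Ioi i, (X j - X i) ^ (k i * k j * (κ₀.1 * κ₀.2))

section sub

variable (b c : ℕ) (κ₀ : ℕ × ℕ)

/-- families on one block with values in `I⁺` (arbitrary on words of the wrong charge) -/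
def NNk (k : ℕ) : Submodule ℚ (Fm b c (ML κ₀ k)) where
  carrier := {F | ∀ w, chg w = (k * κ₀.1, k * κ₀.2) → F w ∈ Ip κ₀ (tw w) tv}
  add_mem' := fun hF hG w hw => Ideal.add_mem _ (hF w hw) (hG w hw)
  zero_mem' := fun _ _ => Ideal.zero_mem _
  smul_mem' := fun r _ hF w hw => Submodule.smul_of_tower_mem _ r (hF w hw)

/-- families on one block with values in `P₁` (arbitrary on words of the wrong charge) -/
def UUk (k : ℕ) : Submodule ℚ (Fm b c (ML κ₀ k)) where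
  carrier := {F | ∀ w, chg w = (k * κ₀.1, k * κ₀.2) → F w ∈ Pf κ₀ 1 (tw w)}
  add_mem' := fun hF hG w hw => Submodule.add_mem _ (hF w hw) (hG w hw)
  zero_mem' := fun _ _ => Submodule.zero_mem _
  smul_mem' := fun r _ hF w hw => Submodule.smul_mem _ r (hF w hw)

/-- families on `d` blocks with values in `I⁺` of the blocks (arbitrary on bad words) -/
def NNs {d : ℕ} (k : Fin d → ℕ) : Submodule ℚ (Fm b c (SL κ₀ k)) where
  carrier := {F | ∀ w, Gw κ₀ k w → F w ∈ Ip κ₀ (tw w) (fs κ₀ k)}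
  add_mem' := fun hF hG w hw => Ideal.add_mem _ (hF w hw) (hG w hw)
  zero_mem' := fun _ _ => Ideal.zero_mem _
  smul_mem' := fun r _ hF w hw => Submodule.smul_of_tower_mem _ r (hF w hw)

/-- products of `P₁`-families, plus `NNs` -/
def UUs {d : ℕ} (k : Fin d → ℕ) : Submodule ℚ (Fm b c (SL κ₀ k)) :=
  Submodule.span ℚ {G | ∃ F : ∀ i, Fm b c (ML κ₀ (k i)), (∀ i, F i ∈ UUk b c κ₀ (k i)) ∧
    G = bx F} ⊔ NNs b c κ₀ k

end sub

/-- a choice of homogeneous representatives of bases of the spaces `B(S_k)` -/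
structure BBas (b c : ℕ) (κ₀ : ℕ × ℕ) where
  v : ∀ k j : ℕ, Fin (bd b c κ₀ k j) → Fm b c (ML κ₀ k)
  mem : ∀ k j i, v k j i ∈ VV b c (ML κ₀ k) (k * κ₀.1, k * κ₀.2) j ⊓ vin (Pf κ₀ 1)
  ind : ∀ k j, ∀ a : Fin (bd b c κ₀ k j) → ℚ, ∑ i, a i • v k j i ∈ vin (IpS _ κ₀) → a = 0
  spn : ∀ k j, ∀ u ∈ VV b c (ML κ₀ k) (k * κ₀.1, k * κ₀.2) j ⊓ vin (Pf κ₀ 1),
    ∃ a : Fin (bd b c κ₀ k j) → ℚ, u - ∑ i, a i • v k j i ∈ vin (IpS _ κ₀)

/-- basis elements of `B(S_k)` of any degree -/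
abbrev XX (b c : ℕ) (κ₀ : ℕ × ℕ) (k : ℕ) : Type := Σ j : ℕ, Fin (bd b c κ₀ k j)

/-- the product of the chosen basis elements -/
def bv {b c : ℕ} {κ₀ : ℕ × ℕ} (V : BBas b c κ₀) {d : ℕ} {k : Fin d → ℕ}
    (x : ∀ i, XX b c κ₀ (k i)) : Fm b c (SL κ₀ k) :=
  bx fun i => V.v (k i) (x i).1 (x i).2

/-- the coefficient of `t^α` of the block translations -/
def Cf {b c : ℕ} {κ₀ : ℕ × ℕ} {d : ℕ} {k : Fin d → ℕ} (α : Fin d →₀ ℕ)
    (F : Fm b c (SL κ₀ k)) : Fm b c (SL κ₀ k) := fun w => (Sh (fs κ₀ k) (F w)).coeff α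

/-- growth conditions for all refinements -/
def Cd {b c : ℕ} {κ₀ : ℕ × ℕ} {d : ℕ} {k : Fin d → ℕ} (G : Fm b c (SL κ₀ k)) : Prop :=
  ∀ w, Gw κ₀ k w → ∀ (d' : ℕ) (β' : SL κ₀ k → Fin d') (φ : Fin d' → Fin d),
    Good κ₀ (tw w) β' → (∀ l, l.1 = φ (β' l)) → ∀ γ : Fin d' →₀ ℕ,
      2 * (dege (tw w) β' : ℤ) - 2 * Ek κ₀ k - d' + d < 2 * (γ.degree : ℤ) →
        (Sh β' (G w)).coeff γ ∈ Ip κ₀ (tw w) β'

/-- permutations inside the blocks -/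
def blp {d : ℕ} {M : Fin d → Type} (g : ∀ i, Equiv.Perm (M i)) : Equiv.Perm (Σ i, M i) :=
  Equiv.sigmaCongrRight g

/-- signed invariance inside the blocks -/
def Bsi {b c : ℕ} {κ₀ : ℕ × ℕ} {d : ℕ} {k : Fin d → ℕ} (G : Fm b c (SL κ₀ k)) : Prop :=
  ∀ g : ∀ i, Equiv.Perm (ML κ₀ (k i)), act (blp g) G = (∏ i, sg (g i)) • G

/-- homogeneous of total degree `j` -/
def Hgj {b c : ℕ} {L : Type} [Fintype L] (j : ℕ) (G : Fm b c L) : Prop :=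
  ∀ w, ∀ m ∈ (G w).support, 2 * b * c * m.degree + ∑ l, cwt b c (w l) = j

/-! ### symbols -/

/-- the polynomial `∑_{|α| = D} λ(C_α F) t^α` -/
def symb {b c : ℕ} {κ₀ : ℕ × ℕ} {d : ℕ} {k : Fin d → ℕ}
    (lam : Fm b c (SL κ₀ k) →ₗ[ℚ] ℚ) (D : ℕ) (F : Fm b c (SL κ₀ k)) : MvPolynomial (Fin d) ℚ :=
  hpol D fun α => lam (Cf α F)

/-- a dual system for the products `bv V x` -/
structure Dual {b c : ℕ} {κ₀ : ℕ × ℕ} (V : BBas b c κ₀) where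
  lam : ∀ {d : ℕ} {k : Fin d → ℕ}, (∀ i, XX b c κ₀ (k i)) → (Fm b c (SL κ₀ k) →ₗ[ℚ] ℚ)
  kill : ∀ {d : ℕ} {k : Fin d → ℕ} (x : ∀ i, XX b c κ₀ (k i)), ∀ G ∈ NNs b c κ₀ k, lam x G = 0
  one : ∀ {d : ℕ} {k : Fin d → ℕ} (x : ∀ i, XX b c κ₀ (k i)), lam x (bv V x) = 1
  zero : ∀ {d : ℕ} {k : Fin d → ℕ} (x y : ∀ i, XX b c κ₀ (k i)), x ≠ y → lam x (bv V y) = 0

/-- size-, basis- and exponent parts of a tuple of generators -/
def ks {b c : ℕ} {κ₀ : ℕ × ℕ} {d : ℕ} (s : Fin d → Gn b c κ₀) : Fin d → ℕ := fun i => (s i).1 + 1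

def xs {b c : ℕ} {κ₀ : ℕ × ℕ} {d : ℕ} (s : Fin d → Gn b c κ₀) (i : Fin d) :
    XX b c κ₀ (ks s i) := ⟨(s i).2.1, (s i).2.2.1⟩

def ms {b c : ℕ} {κ₀ : ℕ × ℕ} {d : ℕ} (s : Fin d → Gn b c κ₀) : Fin d →₀ ℕ :=
  Finsupp.equivFunOnFinite.symm fun i => (s i).2.2.2

/-- average variable of a block -/
def za {κ₀ : ℕ × ℕ} {d : ℕ} (k : Fin d → ℕ) (i : Fin d) : MvPolynomial (SL κ₀ k) ℚ :=
  C ((Fintype.card (ML κ₀ (k i)) : ℚ)⁻¹) * ∑ a : ML κ₀ (k i), X ⟨i, a⟩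

/-- the element `e_π ∏ v_{x_i} z_i^{m_i}` -/
def Hs {b c : ℕ} {κ₀ : ℕ × ℕ} (V : BBas b c κ₀) {d : ℕ} (s : Fin d → Gn b c κ₀) :
    Fm b c (SL κ₀ (ks s)) :=
  fun w => pr (crs (tw w) (fs κ₀ (ks s))) * bv V (xs s) w * ∏ i, za (ks s) i ^ (ms s i)

/-- the signed symmetrisation on the labels `L` -/
def Fs {b c : ℕ} {κ₀ : ℕ × ℕ} (V : BBas b c κ₀) {d : ℕ} (s : Fin d → Gn b c κ₀) {L : Type}
    [Fintype L] [DecidableEq L] (e : SL κ₀ (ks s) ≃ L) : Fm b c L :=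
  Av (rel e (Hs V s))

/-- division in a domain -/
def dvq {d : ℕ} (P Q : MvPolynomial (Fin d) ℚ) : MvPolynomial (Fin d) ℚ :=
  open scoped Classical in if h : Q ∣ P then h.choose else 0

/-- The functional of the tuple `s`: coefficient of `t^m` in `symb / Dl`. -/
def evs {b c : ℕ} {κ₀ : ℕ × ℕ} {V : BBas b c κ₀} (U : Dual V) {d : ℕ} (s : Fin d → Gn b c κ₀)
    {L : Type} [Fintype L] [DecidableEq L] (e : SL κ₀ (ks s) ≃ L) (F : Fm b c L) : ℚ :=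
  (dvq (symb (U.lam (xs s)) (Ek κ₀ (ks s) + (ms s).degree) (rel e.symm F)) (Dl κ₀ (ks s))).coeff
    (ms s)

end Pool.Agent.Work.MP_c41774_al.Full
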