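import Pool.Agent.Work.MP_c41774_al.Full.RIface

/-!
# Block R: PBW at a fixed slope, ring level (fixed labels `L`, fixed types `τ`)

Outputs: the statements `R_*` of `RIface`. The statements `Q_*` below are the internal items.
-/

noncomputable section

namespace Pool.Agent.Work.MP_c41774_al.Full

open Finset MvPolynomial
open Pool.Agent.Work.MP_c41774_al.Wall

section R

variable {L : Type} [Fintype L] [DecidableEq L]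

/-- `n_{ij} = |S_{i,x}| |S_{j,y}|` -/
def nk {d : ℕ} (τ : L → Bool) (β : L → Fin d) (i j : Fin d) : ℕ :=
  nx τ (blk β i) * ny τ (blk β j)

/-- polynomials in the variables of the block `i` with the growth condition `P₁` of that block -/
def BB {d₀ : ℕ} (κ₀ : ℕ × ℕ) (τ : L → Bool) (γ : L → Fin d₀) (i : Fin d₀) :
    Submodule ℚ (MvPolynomial L ℚ) :=
  PR κ₀ d₀ τ γ ⊓ Subalgebra.toSubmodule (supported ℚ {l | γ l = i})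

/-- `∏_{φ i < φ j} (t_j - t_i)^{n_{ij}}` -/
def vdm {d d₀ : ℕ} (A : Type*) [CommRing A] (τ : L → Bool) (β : L → Fin d)
    (φ : Fin d → Fin d₀) : MvPolynomial (Fin d) A :=
  ∏ i, ∏ j ∈ univ.filter (fun j => φ i < φ j), (X j - X i) ^ nk τ β i j

/-- the substitution `t_j ↦ t_j + s_{φ j}` -/
def TT {A : Type*} [CommRing A] {D D' : Type*} (φ : D' → D) :
    MvPolynomial D' A →+* MvPolynomial D (MvPolynomial D' A) :=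
  eval₂Hom (C.comp C) fun j => C (X j) + X (φ j)

/-- `φ` identifies exactly `k` and `l` -/
def Mrg {e : ℕ} (k l : Fin (e + 1)) (φ : Fin (e + 1) → Fin e) : Prop :=
  ∀ i j, φ i = φ j ↔ (i = j ∨ (i = k ∧ j = l) ∨ (i = l ∧ j = k))

/-- The products `e_β ∏ z_i^{m_i} b_i` of level `d + 2 ∑ m_i = n`. -/
def PG (κ₀ : ℕ × ℕ) (n : ℤ) (τ : L → Bool) : Set (MvPolynomial L ℚ) :=
  {f | ∃ (d : ℕ) (β : L → Fin d) (m : Fin d → ℕ) (b : Fin d → MvPolynomial L ℚ),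
    Good κ₀ τ β ∧ (∀ i, b i ∈ BB κ₀ τ β i) ∧ (d : ℤ) + 2 * (∑ i, m i : ℕ) = n ∧
    f = pr (crs τ β) * ∏ i, (zav β i ^ m i * b i)}

end R

/-! ### combinatorics of blocks -/

/-- R01: `n_{ij}` is symmetric and positive -/
def Q_SYMN : Prop := ∀ (L : Type) [Fintype L] [DecidableEq L] (κ₀ : ℕ × ℕ), 0 < κ₀.1 →
  0 < κ₀.2 → ∀ (τ : L → Bool) (d : ℕ) (β : L → Fin d), Good κ₀ τ β → ∀ i j,
    nk τ β i j = nk τ β j i ∧ 0 < nk τ β i j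

/-- R02: `deg e_β` is a sum over pairs of blocks and independent of the order -/
def Q_DEGE : Prop := ∀ (L : Type) [Fintype L] [DecidableEq L] (κ₀ : ℕ × ℕ), 0 < κ₀.1 →
  0 < κ₀.2 → ∀ (τ : L → Bool) (d : ℕ) (β : L → Fin d), Good κ₀ τ β →
    dege τ β = ∑ i, ∑ j ∈ Ioi i, nk τ β i j ∧
    ∀ σ : Equiv.Perm (Fin d), Good κ₀ τ (σ ∘ β) ∧ dege τ (σ ∘ β) = dege τ β

/-- R03: the common refinement -/
def Q_JOIN : Prop := ∀ (L : Type) [Fintype L] [DecidableEq L] (κ₀ : ℕ × ℕ), 0 < κ₀.1 →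
  0 < κ₀.2 → ∀ (τ : L → Bool) (d₀ : ℕ) (γ : L → Fin d₀) (d : ℕ) (β : L → Fin d),
    Good κ₀ τ γ → Good κ₀ τ β → (∀ k l, th κ₀ τ (blk γ k ∩ blk β l) = 0) →
    ∃ (r : ℕ) (δ : L → Fin r) (φ : Fin r → Fin d₀) (ψ : Fin r → Fin d), Good κ₀ τ δ ∧
      (∀ l, γ l = φ (δ l)) ∧ (∀ l, β l = ψ (δ l)) ∧
      (∀ l l', γ l = γ l' → β l = β l' → δ l = δ l') ∧ d ≤ r ∧ d₀ ≤ r ∧
      (r = d → ∃ χ : Fin d → Fin d₀, ∀ l, γ l = χ (β l)) ∧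
      #((crs τ γ).filter fun e => β e.1 ≠ β e.2) + dege τ δ = dege τ γ + dege τ β

/-- R04: merging two blocks -/
def Q_MERGE : Prop := ∀ (L : Type) [Fintype L] [DecidableEq L] (κ₀ : ℕ × ℕ), 0 < κ₀.1 →
  0 < κ₀.2 → ∀ (τ : L → Bool) (e : ℕ) (β : L → Fin (e + 1)), Good κ₀ τ β → ∀ k l, k ≠ l →
    ∃ φ : Fin (e + 1) → Fin e, Mrg k l φ ∧ Good κ₀ τ (φ ∘ β) ∧
      dege τ β = dege τ (φ ∘ β) + nk τ β k l

/-- R05: keep the refinement `β` of `γ` only inside the union `S` of blocks of `γ` -/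
def Q_RST : Prop := ∀ (L : Type) [Fintype L] [DecidableEq L] (κ₀ : ℕ × ℕ), 0 < κ₀.1 →
  0 < κ₀.2 → ∀ (τ : L → Bool) (d₀ : ℕ) (γ : L → Fin d₀) (d : ℕ) (β : L → Fin d)
    (χ : Fin d → Fin d₀) (J : Set (Fin d₀)), Good κ₀ τ γ → Good κ₀ τ β →
    (∀ l, γ l = χ (β l)) →
    ∃ (d' : ℕ) (β' : L → Fin d') (φ : Fin d → Fin d') (χ' : Fin d' → Fin d₀), Good κ₀ τ β' ∧
      (∀ l, β' l = φ (β l)) ∧ (∀ l, γ l = χ' (β' l)) ∧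
      (∀ l l', γ l ∈ J → φ (β l) = φ (β l') → β l = β l') ∧
      (∀ l l', γ l ∉ J → γ l = γ l' → β' l = β' l') ∧
      2 * dege τ β' + d ≤ 2 * dege τ β + d'

/-- R06: in a block with `θ = 0` the cut of a subset with `θ > 0` is not empty -/
def Q_NE : Prop := ∀ (L : Type) [Fintype L] [DecidableEq L] (κ₀ : ℕ × ℕ), 0 < κ₀.1 →
  0 < κ₀.2 → ∀ (τ : L → Bool) (d : ℕ) (β : L → Fin d) (i : Fin d) (T : Finset L),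
    Good κ₀ τ β → T ⊆ blk β i → 0 < th κ₀ τ T → (cut τ β T).Nonempty

/-! ### multiplicativity -/

/-- R07: generators of `I⁺_β` inside the blocks -/
def Q_GEN : Prop := ∀ (L : Type) [Fintype L] [DecidableEq L] (κ₀ : ℕ × ℕ)
  (τ : L → Bool) (d : ℕ) (β : L → Fin d),
    Ip κ₀ τ β = Ideal.span {f | ∃ (i : Fin d) (T : Finset L), T ⊆ blk β i ∧ 0 < th κ₀ τ T ∧
      f = pr (cut τ β T)}

/-- R08: `e_inner · I⁺_δ ⊆ I⁺_β`, `δ` the common refinement of `γ` and `β` -/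
def Q_INN : Prop := ∀ (L : Type) [Fintype L] [DecidableEq L] (κ₀ : ℕ × ℕ)
  (τ : L → Bool) (d₀ : ℕ) (γ : L → Fin d₀) (d : ℕ) (β : L → Fin d) (r : ℕ) (δ : L → Fin r)
  (φ : Fin r → Fin d₀) (ψ : Fin r → Fin d), (∀ k l, th κ₀ τ (blk γ k ∩ blk β l) = 0) →
    (∀ l, γ l = φ (δ l)) → (∀ l, β l = ψ (δ l)) →
    (∀ l l', γ l = γ l' → β l = β l' → δ l = δ l') →
    ∀ f ∈ Ip κ₀ τ δ, pr ((crs τ γ).filter fun e => β e.1 = β e.2) * f ∈ Ip κ₀ τ β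

/-- R09: incompatible partitions give zero -/
def Q_MUL0 : Prop := ∀ (L : Type) [Fintype L] [DecidableEq L] (κ₀ : ℕ × ℕ)
  (τ : L → Bool) (d₀ : ℕ) (γ : L → Fin d₀) (d : ℕ) (β : L → Fin d), Good κ₀ τ γ →
    Good κ₀ τ β → (∃ k l, th κ₀ τ (blk γ k ∩ blk β l) ≠ 0) → ∀ (f : MvPolynomial L ℚ) α,
      (Sh β (pr (crs τ γ) * f)).coeff α ∈ Ip κ₀ τ β

/-- R10: the degree bound for compatible partitions, `r` = number of common blocks -/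
def Q_MUL1 : Prop := ∀ (L : Type) [Fintype L] [DecidableEq L] (κ₀ : ℕ × ℕ), 0 < κ₀.1 →
  0 < κ₀.2 → ∀ (τ : L → Bool) (d₀ : ℕ) (γ : L → Fin d₀) (d : ℕ) (β : L → Fin d) (r : ℕ)
    (δ : L → Fin r) (φ : Fin r → Fin d₀) (ψ : Fin r → Fin d), Good κ₀ τ γ → Good κ₀ τ β →
    (∀ k l, th κ₀ τ (blk γ k ∩ blk β l) = 0) → Good κ₀ τ δ →
    (∀ l, γ l = φ (δ l)) → (∀ l, β l = ψ (δ l)) →
    (∀ l l', γ l = γ l' → β l = β l' → δ l = δ l') →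
    #((crs τ γ).filter fun e => β e.1 ≠ β e.2) + dege τ δ = dege τ γ + dege τ β →
    ∀ (n : ℤ), ∀ f ∈ PR κ₀ n τ γ, ∀ α : Fin d →₀ ℕ,
      2 * (dege τ β : ℤ) + n - r < 2 * (α.degree : ℤ) →
        (Sh β (pr (crs τ γ) * f)).coeff α ∈ Ip κ₀ τ β

/-- R12: the symbol of `e_γ f` vanishes at `β` if `β` does not refine `γ` -/
def Q_SYM1 : Prop := ∀ (L : Type) [Fintype L] [DecidableEq L] (κ₀ : ℕ × ℕ), 0 < κ₀.1 →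
  0 < κ₀.2 → ∀ (τ : L → Bool) (d₀ : ℕ) (γ : L → Fin d₀), Good κ₀ τ γ → ∀ (n : ℤ),
    ∀ f ∈ PR κ₀ n τ γ, ∀ (d : ℕ) (β : L → Fin d), Good κ₀ τ β →
      (¬ ∃ φ : Fin d → Fin d₀, ∀ l, γ l = φ (β l)) → ∀ α : Fin d →₀ ℕ,
        2 * (α.degree : ℤ) = 2 * (dege τ β : ℤ) + n - d →
          (Sh β (pr (crs τ γ) * f)).coeff α ∈ Ip κ₀ τ β

/-- R13: the symbol of `e_γ f` at a refinement `β` of `γ` -/
def Q_SYM2 : Prop := ∀ (L : Type) [Fintype L] [DecidableEq L] (κ₀ : ℕ × ℕ), 0 < κ₀.1 →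
  0 < κ₀.2 → ∀ (τ : L → Bool) (d₀ : ℕ) (γ : L → Fin d₀), Good κ₀ τ γ → ∀ (n : ℤ),
    ∀ f ∈ PR κ₀ n τ γ, ∀ (d : ℕ) (β : L → Fin d), Good κ₀ τ β →
      ∀ φ : Fin d → Fin d₀, (∀ l, γ l = φ (β l)) → ∀ α : Fin d →₀ ℕ,
        2 * (α.degree : ℤ) = 2 * (dege τ β : ℤ) + n - d →
          (Sh β (pr (crs τ γ) * f)).coeff α -
            (vdm (MvPolynomial L ℚ) τ β φ * Sh β f).coeff α ∈ Ip κ₀ τ β

/-! ### exchange of shifts, divisibility (A), refinement (B) -/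

/-- R15: shifting by a coarse partition `φ ∘ δ` and then by `δ` -/
def Q_EXCH : Prop := ∀ (L : Type) [Fintype L] [DecidableEq L] (D D' : Type) (δ : L → D')
  (φ : D' → D) (f : MvPolynomial L ℚ),
    MvPolynomial.map (Sh δ).toRingHom (Sh (φ ∘ δ) f) = TT φ (Sh δ f)

/-- R16: coefficients of `TT` only involve coefficients of the same total degree -/
def Q_TTC : Prop := ∀ (A : Type) [CommRing A] [Algebra ℚ A] (D D' : Type) (φ : D' → D)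
  (J : Submodule ℚ A) (F : MvPolynomial D' A) (α : D →₀ ℕ) (ω : D' →₀ ℕ),
    (∀ η : D' →₀ ℕ, η.degree = α.degree + ω.degree → F.coeff η ∈ J) →
      ((TT φ F).coeff α).coeff ω ∈ J

/-- R17: pure algebra: Taylor expansion along the merged variable -/
def Q_TAY : Prop := ∀ (A : Type) [CommRing A] (e : ℕ) (k l : Fin (e + 1)) (φ : Fin (e + 1) → Fin e),
  k ≠ l → Mrg k l φ → ∀ (G : MvPolynomial (Fin (e + 1)) A) (D₀ n : ℕ), G.IsHomogeneous D₀ →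
    (∀ α : Fin e →₀ ℕ, D₀ < α.degree + n → (TT φ G).coeff α = 0) → (X k - X l) ^ n ∣ G

/-- R18: pure algebra: divisibility by the product -/
def Q_PROD : Prop := ∀ (A : Type) [CommRing A] [Algebra ℚ A] (d : ℕ) (N : Fin d → Fin d → ℕ)
  (G : MvPolynomial (Fin d) A), (∀ i j, i < j → (X j - X i) ^ N i j ∣ G) →
    (∏ i, ∏ j ∈ univ.filter (fun j => i < j), (X j - X i) ^ N i j) ∣ G

/-- R19: pure algebra: coefficients in a subspace, division by a rational polynomial -/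
def Q_DIVU : Prop := ∀ (A : Type) [CommRing A] [Algebra ℚ A] (σ : Type) (U : Submodule ℚ A)
  (P : MvPolynomial σ ℚ) (Q : MvPolynomial σ A), P ≠ 0 →
    (∀ α, (MvPolynomial.map (algebraMap ℚ A) P * Q).coeff α ∈ U) → ∀ α, Q.coeff α ∈ U

/-- R20: (A) divisibility of the top part by `(t_k - t_l)^{n_{kl}}` -/
def Q_DIV : Prop := ∀ (L : Type) [Fintype L] [DecidableEq L] (κ₀ : ℕ × ℕ), 0 < κ₀.1 →
  0 < κ₀.2 → ∀ (τ : L → Bool) (n : ℤ), ∀ f ∈ Pf κ₀ n τ, ∀ (e : ℕ) (β : L → Fin (e + 1)),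
    Good κ₀ τ β → ∀ (D₀ : ℕ), 2 * (D₀ : ℤ) = 2 * (dege τ β : ℤ) + n - (e + 1) → ∀ k l, k ≠ l →
      (X k - X l) ^ nk τ β k l ∣ MvPolynomial.map (Ideal.Quotient.mk (Ip κ₀ τ β))
        (homogeneousComponent D₀ (Sh β f))

/-- R21: (B) the coefficients of the top part satisfy the growth condition relative to `β` -/
def Q_B1 : Prop := ∀ (L : Type) [Fintype L] [DecidableEq L] (κ₀ : ℕ × ℕ)
  (τ : L → Bool) (n : ℤ), ∀ f ∈ Pf κ₀ n τ, ∀ (d : ℕ) (β : L → Fin d), Good κ₀ τ β →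
    ∀ α : Fin d →₀ ℕ, 2 * (α.degree : ℤ) = 2 * (dege τ β : ℤ) + n - d →
      (Sh β f).coeff α ∈ PR κ₀ d τ β

/-- R22: the symbol: quotient of the top part by `∏ (t_j - t_i)^{n_{ij}}` -/
def Q_SYMQ : Prop := ∀ (L : Type) [Fintype L] [DecidableEq L] (κ₀ : ℕ × ℕ), 0 < κ₀.1 →
  0 < κ₀.2 → ∀ (τ : L → Bool) (n : ℤ), ∀ f ∈ Pf κ₀ n τ, ∀ (d : ℕ) (β : L → Fin d),
    Good κ₀ τ β → ∃ c : MvPolynomial (Fin d) (MvPolynomial L ℚ),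
      (∀ α, c.coeff α ∈ PR κ₀ d τ β) ∧
      (∀ α, c.coeff α ≠ 0 → 2 * (α.degree : ℤ) = n - d) ∧
      ∀ ω : Fin d →₀ ℕ, 2 * (ω.degree : ℤ) = 2 * (dege τ β : ℤ) + n - d →
        (Sh β f).coeff ω - (vdm (MvPolynomial L ℚ) τ β id * c).coeff ω ∈ Ip κ₀ τ β

/-! ### `P_d(β)` is the product of the `P₁` of the blocks -/

/-- R23: linear algebra: `U₁ ⊗ U₂` by contractions -/
def Q_LA : Prop := ∀ (V₁ V₂ W : Type) [AddCommGroup V₁] [Module ℚ V₁] [AddCommGroup V₂]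
  [Module ℚ V₂] [AddCommGroup W] [Module ℚ W] (B : V₁ →ₗ[ℚ] V₂ →ₗ[ℚ] W)
  (I₁ U₁ : Submodule ℚ V₁) (I₂ U₂ : Submodule ℚ V₂) (W₀ : Submodule ℚ W) (m : ℕ)
  (a : Fin m → V₁) (b : Fin m → V₂), I₁ ≤ U₁ → I₂ ≤ U₂ →
    (∀ x ∈ I₁, ∀ y, B x y ∈ W₀) → (∀ x, ∀ y ∈ I₂, B x y ∈ W₀) →
    (∀ μ : V₂ →ₗ[ℚ] ℚ, (∀ y ∈ I₂, μ y = 0) → ∑ i, μ (b i) • a i ∈ U₁) →
    (∀ lam : V₁ →ₗ[ℚ] ℚ, (∀ x ∈ I₁, lam x = 0) → ∑ i, lam (a i) • b i ∈ U₂) →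
    ∑ i, B (a i) (b i) ∈ Submodule.span ℚ {z | ∃ x ∈ U₁, ∃ y ∈ U₂, z = B x y} ⊔ W₀

/-- R24: contraction with a functional in the variables outside `S` -/
def Q_CTR : Prop := ∀ (L : Type) (S : Set L) (μ : MvPolynomial L ℚ →ₗ[ℚ] ℚ),
  ∃ c : MvPolynomial L ℚ →ₗ[ℚ] MvPolynomial L ℚ, ∀ a ∈ supported ℚ S, ∀ b ∈ supported ℚ Sᶜ,
    c (a * b) = μ b • a

/-- R25: polynomials in two disjoint sets of variables are sums of products -/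
def Q_DEC : Prop := ∀ (L : Type) (S S' : Set L) (g : MvPolynomial L ℚ),
  g ∈ supported ℚ (S ∪ S') → ∃ (m : ℕ) (a b : Fin m → MvPolynomial L ℚ),
    (∀ i, a i ∈ supported ℚ S) ∧ (∀ i, b i ∈ supported ℚ S') ∧ g = ∑ i, a i * b i

/-- R26: elements of `I⁺_β` in the variables of a union of blocks -/
def Q_SPL : Prop := ∀ (L : Type) [Fintype L] [DecidableEq L] (κ₀ : ℕ × ℕ), 0 < κ₀.1 →
  0 < κ₀.2 → ∀ (τ : L → Bool) (d : ℕ) (β : L → Fin d), Good κ₀ τ β → ∀ (J : Set (Fin d))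
    (f : MvPolynomial L ℚ), f ∈ Ip κ₀ τ β → f ∈ supported ℚ {l | β l ∈ J} →
      f ∈ Submodule.span ℚ {g | ∃ (i : Fin d) (T : Finset L) (h : MvPolynomial L ℚ), i ∈ J ∧
        T ⊆ blk β i ∧ 0 < th κ₀ τ T ∧ h ∈ supported ℚ {l | β l ∈ J} ∧ g = h * pr (cut τ β T)}

/-- R27: contraction maps `I⁺_β` to `I⁺_β` -/
def Q_CTI : Prop := ∀ (L : Type) [Fintype L] [DecidableEq L] (κ₀ : ℕ × ℕ), 0 < κ₀.1 →
  0 < κ₀.2 → ∀ (τ : L → Bool) (d : ℕ) (β : L → Fin d), Good κ₀ τ β →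
    ∀ (J J' : Set (Fin d)), Disjoint J J' → ∀ (μ : MvPolynomial L ℚ →ₗ[ℚ] ℚ),
    (∀ f ∈ Ip κ₀ τ β, f ∈ supported ℚ {l | β l ∈ J'} → μ f = 0) →
    ∀ (m : ℕ) (a b : Fin m → MvPolynomial L ℚ), (∀ i, a i ∈ supported ℚ {l | β l ∈ J}) →
      (∀ i, b i ∈ supported ℚ {l | β l ∈ J'}) → ∑ i, a i * b i ∈ Ip κ₀ τ β →
        ∑ i, μ (b i) • a i ∈ Ip κ₀ τ β

/-- R28: contraction preserves the growth condition -/
def Q_CTP : Prop := ∀ (L : Type) [Fintype L] [DecidableEq L] (κ₀ : ℕ × ℕ), 0 < κ₀.1 →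
  0 < κ₀.2 → ∀ (τ : L → Bool) (d₀ : ℕ) (γ : L → Fin d₀), Good κ₀ τ γ →
    ∀ (J J' : Set (Fin d₀)), Disjoint J J' → ∀ (μ : MvPolynomial L ℚ →ₗ[ℚ] ℚ),
    (∀ f ∈ Ip κ₀ τ γ, f ∈ supported ℚ {l | γ l ∈ J'} → μ f = 0) →
    ∀ (n : ℤ) (m : ℕ) (a b : Fin m → MvPolynomial L ℚ),
      (∀ i, a i ∈ supported ℚ {l | γ l ∈ J}) →
      (∀ i, b i ∈ supported ℚ {l | γ l ∈ J'}) → ∑ i, a i * b i ∈ PR κ₀ n τ γ →
        ∑ i, μ (b i) • a i ∈ PR κ₀ n τ γ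

/-- R29: splitting off one block -/
def Q_TWO : Prop := ∀ (L : Type) [Fintype L] [DecidableEq L] (κ₀ : ℕ × ℕ), 0 < κ₀.1 →
  0 < κ₀.2 → ∀ (τ : L → Bool) (d₀ : ℕ) (γ : L → Fin d₀), Good κ₀ τ γ → ∀ (j : Fin d₀)
    (g : MvPolynomial L ℚ), g ∈ PR κ₀ d₀ τ γ → g ∈ supported ℚ {l | j ≤ γ l} →
      g ∈ Submodule.span ℚ {z | ∃ x ∈ BB κ₀ τ γ j, ∃ y ∈ PR κ₀ d₀ τ γ,
        y ∈ supported ℚ {l | j < γ l} ∧ z = x * y} ⊔ (Ip κ₀ τ γ).restrictScalars ℚ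

/-- R30: `P_d(γ) = ∏ P₁(block i) + I⁺_γ` -/
def Q_BDEC : Prop := ∀ (L : Type) [Fintype L] [DecidableEq L] (κ₀ : ℕ × ℕ), 0 < κ₀.1 →
  0 < κ₀.2 → ∀ (τ : L → Bool) (d₀ : ℕ) (γ : L → Fin d₀), Good κ₀ τ γ →
    ∀ g ∈ PR κ₀ d₀ τ γ, g ∈ Submodule.span ℚ {z | ∃ b : Fin d₀ → MvPolynomial L ℚ,
      (∀ i, b i ∈ BB κ₀ τ γ i) ∧ z = ∏ i, b i} ⊔ (Ip κ₀ τ γ).restrictScalars ℚ

/-! ### the spanning theorem -/

/-- R32: multiplication by a block centre -/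
def Q_ZMUL : Prop := ∀ (L : Type) [Fintype L] [DecidableEq L] (κ₀ : ℕ × ℕ)
  (τ : L → Bool) (d₀ : ℕ) (γ : L → Fin d₀), Good κ₀ τ γ → ∀ (n : ℤ), ∀ f ∈ PR κ₀ n τ γ,
    (∀ i, zav γ i * f ∈ PR κ₀ (n + 2) τ γ) ∧
    ∀ m : Fin d₀ → ℕ, (∏ i, zav γ i ^ m i) * f ∈ PR κ₀ (n + 2 * (∑ i, m i : ℕ)) τ γ

/-- R33: top coefficients of `(∏ z_i^{m_i}) f` for `f` in `P_d(γ)` -/
def Q_ZTOP : Prop := ∀ (L : Type) [Fintype L] [DecidableEq L] (κ₀ : ℕ × ℕ)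
  (τ : L → Bool) (d₀ : ℕ) (γ : L → Fin d₀), Good κ₀ τ γ → ∀ f ∈ PR κ₀ d₀ τ γ,
    ∀ m ω : Fin d₀ →₀ ℕ, m.degree = ω.degree →
      (Sh γ ((∏ i, zav γ i ^ m i) * f)).coeff ω - (if m = ω then f else 0) ∈ Ip κ₀ τ γ

/-- R34: `Ip ≤ Pf n`, `Pf` increasing, and `Pf (n-1)` inside `Pf n` by the top coefficients -/
def Q_PF : Prop := ∀ (L : Type) [Fintype L] [DecidableEq L] (κ₀ : ℕ × ℕ) (τ : L → Bool),
  (∀ n, IpS L κ₀ τ ≤ Pf κ₀ n τ) ∧ (∀ n n', n ≤ n' → Pf κ₀ n τ ≤ Pf κ₀ n' τ) ∧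
  (∀ n, ∀ f ∈ Pf κ₀ n τ, (∀ (d : ℕ) (β : L → Fin d), Good κ₀ τ β → ∀ α : Fin d →₀ ℕ,
    2 * (α.degree : ℤ) = 2 * (dege τ β : ℤ) + n - d → (Sh β f).coeff α ∈ Ip κ₀ τ β) →
      f ∈ Pf κ₀ (n - 1) τ) ∧
  (∀ f, ∃ n, f ∈ Pf κ₀ n τ) ∧
  (th κ₀ τ univ = 0 → ∀ n < 0, Pf κ₀ n τ ≤ IpS L κ₀ τ) ∧
  (th κ₀ τ univ = 0 → Nonempty L → Pf κ₀ 0 τ ≤ IpS L κ₀ τ)

/-- R35a: an element of level `n` with the symbol of `f` at `β` and no other symbols at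
partitions with at most as many blocks -/
def Q_GB : Prop := ∀ (L : Type) [Fintype L] [DecidableEq L] (κ₀ : ℕ × ℕ), 0 < κ₀.1 →
  0 < κ₀.2 → ∀ (τ : L → Bool) (n : ℤ), ∀ f ∈ Pf κ₀ n τ, ∀ (d : ℕ) (β : L → Fin d),
    Good κ₀ τ β → ∃ g ∈ Submodule.span ℚ (PG κ₀ n τ) ⊔ IpS L κ₀ τ, g ∈ Pf κ₀ n τ ∧
      (∀ (d' : ℕ) (β' : L → Fin d'), Good κ₀ τ β' → d' ≤ d →
        (¬ ∃ σ : Fin d ≃ Fin d', β' = σ ∘ β) → ∀ α : Fin d' →₀ ℕ,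
        2 * (α.degree : ℤ) = 2 * (dege τ β' : ℤ) + n - d' →
          (Sh β' g).coeff α ∈ Ip κ₀ τ β') ∧
      ∀ σ : Equiv.Perm (Fin d), ∀ α : Fin d →₀ ℕ,
        2 * (α.degree : ℤ) = 2 * (dege τ β : ℤ) + n - d →
          (Sh (σ ∘ β) g).coeff α - (Sh (σ ∘ β) f).coeff α ∈ Ip κ₀ τ (σ ∘ β)

/-- R35: one step: correct the symbols at the partitions with `e` blocks -/
def Q_STEP : Prop := ∀ (L : Type) [Fintype L] [DecidableEq L] (κ₀ : ℕ × ℕ), 0 < κ₀.1 →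
  0 < κ₀.2 → ∀ (τ : L → Bool) (n : ℤ) (e : ℕ), ∀ f ∈ Pf κ₀ n τ,
    (∀ (d : ℕ) (β : L → Fin d), d < e → Good κ₀ τ β → ∀ α : Fin d →₀ ℕ,
      2 * (α.degree : ℤ) = 2 * (dege τ β : ℤ) + n - d → (Sh β f).coeff α ∈ Ip κ₀ τ β) →
    ∃ g ∈ Submodule.span ℚ (PG κ₀ n τ) ⊔ IpS L κ₀ τ, f - g ∈ Pf κ₀ n τ ∧
      ∀ (d : ℕ) (β : L → Fin d), d < e + 1 → Good κ₀ τ β → ∀ α : Fin d →₀ ℕ,
        2 * (α.degree : ℤ) = 2 * (dege τ β : ℤ) + n - d →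
          (Sh β (f - g)).coeff α ∈ Ip κ₀ τ β

/-- R36: the spanning theorem -/
def Q_SPAN : Prop := ∀ (L : Type) [Fintype L] [DecidableEq L] (κ₀ : ℕ × ℕ), 0 < κ₀.1 →
  0 < κ₀.2 → ∀ (τ : L → Bool), th κ₀ τ univ = 0 → ∀ (n : ℤ), ∀ f ∈ Pf κ₀ n τ,
    f ∈ Submodule.span ℚ {g | ∃ n' ≤ n, g ∈ PG κ₀ n' τ} ⊔ IpS L κ₀ τ

/-! ### transport between a block and its own label set, homogeneity -/

/-- R38: restriction of a refinement of `Sigma.fst` to the blocks -/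
def Q_SPLIT : Prop := ∀ (d₀ : ℕ) (M : Fin d₀ → Type) [∀ i, Fintype (M i)]
  [∀ i, DecidableEq (M i)] (κ₀ : ℕ × ℕ), 0 < κ₀.1 → 0 < κ₀.2 → ∀ (τ : (Σ i, M i) → Bool)
  (d : ℕ) (β : (Σ i, M i) → Fin d) (φ : Fin d → Fin d₀), Good κ₀ τ Sigma.fst →
    Good κ₀ τ β → (∀ l, l.1 = φ (β l)) →
    ∃ (r : Fin d₀ → ℕ) (β' : ∀ i, M i → Fin (r i)) (j : ∀ i, Fin (r i) → Fin d),
      (∀ i, Good κ₀ (fun a => τ ⟨i, a⟩) (β' i)) ∧ (∀ i a, β ⟨i, a⟩ = j i (β' i a)) ∧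
      (∀ i, Function.Injective (j i)) ∧ (∀ i k, φ (j i k) = i) ∧ ∑ i, r i = d ∧
      dege τ β = dege τ (Sigma.fst : (Σ i, M i) → Fin d₀) +
        ∑ i, dege (fun a => τ ⟨i, a⟩) (β' i)

/-- R38a: extension of a partition of one block by the other blocks of `γ` -/
def Q_EXT : Prop := ∀ (L L' : Type) [Fintype L] [DecidableEq L] [Fintype L'] [DecidableEq L']
  (κ₀ : ℕ × ℕ), 0 < κ₀.1 → 0 < κ₀.2 → ∀ (τ : L → Bool) (d₀ : ℕ) (γ : L → Fin d₀),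
    Good κ₀ τ γ → ∀ (i : Fin d₀) (ι : L' → L), Function.Injective ι →
      (∀ l, γ l = i ↔ ∃ l', ι l' = l) → ∀ (r : ℕ) (β' : L' → Fin r), Good κ₀ (τ ∘ ι) β' →
      ∃ (d : ℕ) (β : L → Fin d) (φ : Fin d → Fin d₀) (j : Fin r → Fin d), Good κ₀ τ β ∧
        (∀ l, γ l = φ (β l)) ∧ (∀ l', β (ι l') = j (β' l')) ∧ Function.Injective j ∧
        (∀ l, γ l ≠ i → ∀ k, β l ≠ j k) ∧ d + 1 = d₀ + r ∧
        dege τ β = dege τ γ + dege (τ ∘ ι) β'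

/-- R38b: the ideal of a union of blocks, seen on its own label set -/
def Q_IPI : Prop := ∀ (L L' : Type) [Fintype L] [DecidableEq L] [Fintype L'] [DecidableEq L']
  (κ₀ : ℕ × ℕ), 0 < κ₀.1 → 0 < κ₀.2 → ∀ (τ : L → Bool) (d : ℕ) (β : L → Fin d) (ι : L' → L)
  (r : ℕ) (β' : L' → Fin r) (j : Fin r → Fin d), Good κ₀ τ β → Function.Injective ι →
    Function.Injective j → (∀ l', β (ι l') = j (β' l')) →
    (∀ l, (∃ k, β l = j k) → ∃ l', ι l' = l) → ∀ x : MvPolynomial L' ℚ,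
      rename ι x ∈ Ip κ₀ τ β ↔ x ∈ Ip κ₀ (τ ∘ ι) β'

/-- R39: from `L` to the block -/
def Q_TRJ : Prop := ∀ (L L' : Type) [Fintype L] [DecidableEq L] [Fintype L'] [DecidableEq L']
  (κ₀ : ℕ × ℕ), 0 < κ₀.1 → 0 < κ₀.2 → ∀ (τ : L → Bool) (d₀ : ℕ) (γ : L → Fin d₀),
    Good κ₀ τ γ → ∀ (i : Fin d₀) (ι : L' → L), Function.Injective ι →
      (∀ l, γ l = i ↔ ∃ l', ι l' = l) → ∀ b ∈ BB κ₀ τ γ i,
        ∃ f ∈ Pf κ₀ 1 (τ ∘ ι), b = rename ι f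

/-! ### product functionals -/

/-- R41: the product functional -/
def Q_FUN : Prop := ∀ (b c : ℕ) (d : ℕ) (M : Fin d → Type) [∀ i, Fintype (M i)]
  [∀ i, DecidableEq (M i)] (lam : ∀ i, Fm b c (M i) →ₗ[ℚ] ℚ),
    ∃ Lam : Fm b c (Σ i, M i) →ₗ[ℚ] ℚ, ∀ F : ∀ i, Fm b c (M i), Lam (bx F) = ∏ i, lam i (F i)

end Pool.Agent.Work.MP_c41774_al.Full
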